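import Mathlib
import Pool.Agent.TH202.FlRes
import Pool.Agent.TH202.Cen
import Pool.Agent.TH796.C8_XM2
import Pool.Agent.TH126.C8_OVER

/-!
Job 979 (helper202): uniqueness of the exceptional divisor of the blow-up of the origin.
-/

set_option autoImplicit false
namespace Pool.Agent.TH917.FL_GUN
open Pool.Agent.H436R3.Fol Pool.Agent.TH202 MvPolynomial

section Descent

variable {R : Type} [CommRing R] [IsDomain R] {x : R}

/-- One step of the descent. -/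
theorem descent_step (hx : Prime x) {u v w : R} (h : u ^ 3 + x * v ^ 3 + x ^ 2 * w ^ 3 = 3 * x * u * v * w) :
    ∃ u' v' w', u = x * u' ∧ v = x * v' ∧ w = x * w' ∧
      u' ^ 3 + x * v' ^ 3 + x ^ 2 * w' ^ 3 = 3 * x * u' * v' * w' := by
  have hx0 : x ≠ 0 := hx.ne_zero
  have h1 : x ∣ u := by
    apply hx.dvd_of_dvd_pow (n := 3)
    exact ⟨3 * u * v * w - v ^ 3 - x * w ^ 3, by linear_combination h⟩
  obtain ⟨u', rfl⟩ := h1
  have h2 : x * u' ^ 3 * x + v ^ 3 + x * w ^ 3 = 3 * x * u' * v * w := by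
    apply mul_left_cancel₀ hx0
    linear_combination h
  have h3 : x ∣ v := by
    apply hx.dvd_of_dvd_pow (n := 3)
    exact ⟨3 * u' * v * w - x * u' ^ 3 - w ^ 3, by linear_combination h2⟩
  obtain ⟨v', rfl⟩ := h3
  have h4 : u' ^ 3 * x + x ^ 2 * v' ^ 3 + w ^ 3 = 3 * x * u' * v' * w := by
    apply mul_left_cancel₀ hx0
    linear_combination h2
  have h5 : x ∣ w := by
    apply hx.dvd_of_dvd_pow (n := 3)
    exact ⟨3 * u' * v' * w - u' ^ 3 - x * v' ^ 3, by linear_combination h4⟩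
  obtain ⟨w', rfl⟩ := h5
  refine ⟨u', v', w', rfl, rfl, rfl, ?_⟩
  apply mul_left_cancel₀ hx0
  linear_combination h4

theorem descent_pow (hx : Prime x) (n : ℕ) {u v w : R}
    (h : u ^ 3 + x * v ^ 3 + x ^ 2 * w ^ 3 = 3 * x * u * v * w) :
    x ^ n ∣ u ∧ x ^ n ∣ v ∧ x ^ n ∣ w := by
  induction n generalizing u v w with
  | zero => simp
  | succ n ih =>
    obtain ⟨u', v', w', rfl, rfl, rfl, h'⟩ := descent_step hx h
    obtain ⟨h1, h2, h3⟩ := ih h'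
    rw [pow_succ']
    exact ⟨mul_dvd_mul_left x h1, mul_dvd_mul_left x h2, mul_dvd_mul_left x h3⟩

theorem descent [WfDvdMonoid R] (hx : Prime x) {u v w : R}
    (h : u ^ 3 + x * v ^ 3 + x ^ 2 * w ^ 3 = 3 * x * u * v * w) :
    u = 0 ∧ v = 0 ∧ w = 0 := by
  have key : ∀ z : R, (∀ n, x ^ n ∣ z) → z = 0 := by
    intro z hz
    by_contra h0
    obtain ⟨n, hn⟩ := FiniteMultiplicity.of_not_isUnit hx.not_isUnit h0
    exact hn (hz (n + 1))
  exact ⟨key u fun n => (descent_pow hx n h).1, key v fun n => (descent_pow hx n h).2.1,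
    key w fun n => (descent_pow hx n h).2.2⟩

end Descent

/-- Divisibility by the first variable. -/
noncomputable def ev0 : MvPolynomial (Fin 3) ℂ →+* MvPolynomial (Fin 2) ℂ :=
  (Polynomial.constantCoeff).comp (finSuccEquiv ℂ 2).toRingEquiv.toRingHom

theorem ev0_eq (q : MvPolynomial (Fin 3) ℂ) : ev0 q = (finSuccEquiv ℂ 2 q).coeff 0 := rfl

theorem X_dvd_iff (q : MvPolynomial (Fin 3) ℂ) : X 0 ∣ q ↔ ev0 q = 0 := by
  rw [ev0_eq, ← Polynomial.X_dvd_iff, ← finSuccEquiv_X_zero, map_dvd_iff]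

theorem ev0_X0 : ev0 (X 0) = 0 := by
  rw [ev0_eq, finSuccEquiv_X_zero]
  simp

theorem ev0_X1 : ev0 (X 1) = X 0 := by
  have : (1 : Fin 3) = Fin.succ 0 := rfl
  rw [ev0_eq, this, finSuccEquiv_X_succ]
  simp

/-- The norm form. -/
theorem norm_form {P0 P1 P2 : MvPolynomial (Fin 3) ℂ}
    (h : X 0 ∣ P0 ^ 3 * (X 1 ^ 2 * (1 - X 0 ^ 2)) ^ 2 +
      P1 ^ 3 * (1 - X 0 ^ 2 * X 1 ^ 2) * (X 1 ^ 2 * (1 - X 0 ^ 2)) +
      P2 ^ 3 * (1 - X 0 ^ 2 * X 1 ^ 2) ^ 2 -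
      3 * P0 * P1 * P2 * (1 - X 0 ^ 2 * X 1 ^ 2) * (X 1 ^ 2 * (1 - X 0 ^ 2))) :
    X 0 ∣ P0 ∧ X 0 ∣ P1 ∧ X 0 ∣ P2 := by
  rw [X_dvd_iff] at h ⊢
  rw [X_dvd_iff, X_dvd_iff]
  simp only [map_sub, map_add, map_mul, map_pow, ev0_X0, ev0_X1, map_one, map_ofNat] at h
  have h1 := descent (x := (X 0 : MvPolynomial (Fin 2) ℂ)) (X_prime)
    (u := ev0 P2) (v := X 0 * ev0 P0) (w := ev0 P1) (by linear_combination h)
  obtain ⟨h2, h3, h4⟩ := h1
  exact ⟨(mul_eq_zero.1 h3).resolve_left (X_ne_zero _), h4, h2⟩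

variable {K : Type} [Field K] [Algebra ℂ K]

/-- The coordinates of the chart. -/
noncomputable abbrev tt (d : Dat K) : Fin 3 → K := ![d.a, d.b / d.a, d.c / d.a]

/-- The hypotheses on the valuation. -/
def Hyp (d : Dat K) (w : DVal K) : Prop := IsLocalRing' (IC (tt d)) w ∧ 0 < w.ord d.a

theorem mem_F (d : Dat K) (j : Fin 3) : tt d j ∈ IntermediateField.adjoin ℂ (Set.range (tt d)) :=
  IntermediateField.subset_adjoin _ _ ⟨j, rfl⟩

theorem a_mem (d : Dat K) : d.a ∈ IntermediateField.adjoin ℂ (Set.range (tt d)) := mem_F d 0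

theorem b_mem (d : Dat K) : d.b ∈ IntermediateField.adjoin ℂ (Set.range (tt d)) := by
  have h : d.b = tt d 0 * tt d 1 := by
    change d.b = d.a * (d.b / d.a)
    rw [mul_div_cancel₀ _ d.a_ne]
  rw [h]
  exact mul_mem (mem_F d 0) (mem_F d 1)

theorem c_mem (d : Dat K) : d.c ∈ IntermediateField.adjoin ℂ (Set.range (tt d)) := by
  have h : d.c = tt d 0 * tt d 2 := by
    change d.c = d.a * (d.c / d.a)
    rw [mul_div_cancel₀ _ d.a_ne]
  rw [h]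
  exact mul_mem (mem_F d 0) (mem_F d 2)

theorem tt_ind (d : Dat K) : AlgebraicIndependent ℂ (tt d) :=
  Pool.Agent.TH796.C8_XM2.ind_of d _ (a_mem d) (b_mem d) (c_mem d)

theorem aeval_ne (d : Dat K) {q : MvPolynomial (Fin 3) ℂ} (hq : q ≠ 0) : aeval (tt d) q ≠ 0 := by
  intro h
  apply hq
  apply tt_ind d
  rw [h, map_zero]

theorem pos_iff {d : Dat K} {w : DVal K} (hw : Hyp d w) (q : MvPolynomial (Fin 3) ℂ) :
    w.Pos (aeval (tt d) q) ↔ X 0 ∣ q := by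
  obtain ⟨π, hπ, h⟩ := Pool.Agent.TH126.C8_OVER.prime_over (tt d) (tt_ind d)
    (Pool.Agent.TH796.C8_XM2.alg_of d _ (a_mem d) (b_mem d) (c_mem d)) w hw.1
  have h0 : π ∣ X 0 := by
    rw [← h, aeval_X]
    exact Or.inr hw.2
  have h1 : Associated π (X 0) := hπ.associated_of_dvd X_prime h0
  rw [h, h1.dvd_iff_dvd_left]

theorem reg_aeval {d : Dat K} {w : DVal K} (hw : Hyp d w) (q : MvPolynomial (Fin 3) ℂ) :
    w.Reg (aeval (tt d) q) :=
  hw.1.1 _ (Pool.Agent.TH796.C8_XM2.aeval_mem_IC _ _)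

/-- The order of a polynomial. -/
theorem ord_aeval (d : Dat K) {q : MvPolynomial (Fin 3) ℂ} (hq : q ≠ 0) :
    ∃ m : ℕ, ∀ w : DVal K, Hyp d w → w.ord (aeval (tt d) q) = m * w.ord d.a := by
  obtain ⟨q', h1, h2⟩ := (FiniteMultiplicity.of_not_isUnit
    (X_prime (R := ℂ) (i := (0 : Fin 3))).not_isUnit hq).exists_eq_pow_mul_and_not_dvd
  refine ⟨multiplicity (X 0) q, fun w hw => ?_⟩
  have hq' : q' ≠ 0 := by
    rintro rfl
    exact h2 (dvd_zero _)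
  have h3 : w.ord (aeval (tt d) q') = 0 := by
    have h4 := (reg_aeval hw q').resolve_left (aeval_ne d hq')
    have h5 : ¬ w.Pos (aeval (tt d) q') := fun h => h2 ((pos_iff hw q').1 h)
    have h6 : ¬ 0 < w.ord (aeval (tt d) q') := fun h => h5 (Or.inr h)
    omega
  generalize multiplicity (X 0) q = m at h1
  have hX : aeval (tt d) (X 0 : MvPolynomial (Fin 3) ℂ) = d.a := aeval_X _ _
  rw [h1, map_mul, map_pow, hX, w.map_mul _ _ (pow_ne_zero _ d.a_ne) (aeval_ne d hq'), h3,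
    add_zero]
  exact w.ord_pow d.a_ne m

/-- Removing the common power of a prime element. -/
theorem common_factor {R : Type} [CommRing R] [IsDomain R] [WfDvdMonoid R] {x : R} (hx : Prime x)
    {p0 p1 p2 : R} (h : ¬ (p0 = 0 ∧ p1 = 0 ∧ p2 = 0)) :
    ∃ (m : ℕ) (q0 q1 q2 : R), p0 = x ^ m * q0 ∧ p1 = x ^ m * q1 ∧ p2 = x ^ m * q2 ∧
      ¬ (x ∣ q0 ∧ x ∣ q1 ∧ x ∣ q2) := by
  classical
  have hex : ∃ n, ¬ (x ^ n ∣ p0 ∧ x ^ n ∣ p1 ∧ x ^ n ∣ p2) := by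
    by_contra hcon
    push Not at hcon
    apply h
    have key : ∀ z : R, (∀ n, x ^ n ∣ z) → z = 0 := by
      intro z hz
      by_contra h0
      obtain ⟨n, hn⟩ := FiniteMultiplicity.of_not_isUnit hx.not_isUnit h0
      exact hn (hz (n + 1))
    exact ⟨key _ fun n => (hcon n).1, key _ fun n => (hcon n).2.1, key _ fun n => (hcon n).2.2⟩
  have hn := Nat.find_spec hex
  have hmin := fun m => Nat.find_min hex (m := m)
  generalize Nat.find hex = n at hn hmin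
  rcases n with _ | n
  · exact absurd (by simp) hn
  · have h1 := hmin n (Nat.lt_succ_self n)
    rw [not_not] at h1
    obtain ⟨⟨q0, rfl⟩, ⟨q1, rfl⟩, ⟨q2, rfl⟩⟩ := h1
    refine ⟨n, q0, q1, q2, rfl, rfl, rfl, fun h2 => hn ?_⟩
    rw [pow_succ]
    exact ⟨mul_dvd_mul_left _ h2.1, mul_dvd_mul_left _ h2.2.1, mul_dvd_mul_left _ h2.2.2⟩

/-- The equation of the cube root. -/
theorem r_eq (d : Dat K) :
    d.r ^ 3 * aeval (tt d) (X 1 ^ 2 * (1 - X 0 ^ 2) : MvPolynomial (Fin 3) ℂ) =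
      aeval (tt d) (1 - X 0 ^ 2 * X 1 ^ 2 : MvPolynomial (Fin 3) ℂ) := by
  have h := d.r3
  have ha := d.a_ne
  simp only [map_mul, map_sub, map_pow, aeval_X, map_one]
  change d.r ^ 3 * ((d.b / d.a) ^ 2 * (1 - d.a ^ 2)) = 1 - d.a ^ 2 * (d.b / d.a) ^ 2
  field_simp
  linear_combination h

theorem not_dvd_D : ¬ (X 0 : MvPolynomial (Fin 3) ℂ) ∣ X 1 ^ 2 * (1 - X 0 ^ 2) := by
  rw [X_dvd_iff]
  simp only [map_mul, map_sub, map_pow, ev0_X0, ev0_X1, map_one]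
  simp [X_ne_zero]

theorem not_dvd_E : ¬ (X 0 : MvPolynomial (Fin 3) ℂ) ∣ 1 - X 0 ^ 2 * X 1 ^ 2 := by
  rw [X_dvd_iff]
  simp only [map_mul, map_sub, map_pow, ev0_X0, ev0_X1, map_one]
  simp

theorem ord_zero {d : Dat K} {w : DVal K} (hw : Hyp d w) {q : MvPolynomial (Fin 3) ℂ}
    (hq : ¬ X 0 ∣ q) : w.ord (aeval (tt d) q) = 0 := by
  have hq0 : q ≠ 0 := by
    rintro rfl
    exact hq (dvd_zero _)
  have h4 := (reg_aeval hw q).resolve_left (aeval_ne d hq0)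
  have h5 : ¬ w.Pos (aeval (tt d) q) := fun h => hq ((pos_iff hw q).1 h)
  have h6 : ¬ 0 < w.ord (aeval (tt d) q) := fun h => h5 (Or.inr h)
  omega

theorem reg_r {d : Dat K} {w : DVal K} (hw : Hyp d w) : w.Reg d.r := by
  by_cases hr : d.r = 0
  · exact Or.inl hr
  have h1 := congrArg w.ord (r_eq d)
  have hD : aeval (tt d) (X 1 ^ 2 * (1 - X 0 ^ 2) : MvPolynomial (Fin 3) ℂ) ≠ 0 :=
    aeval_ne d fun h => not_dvd_D (h ▸ dvd_zero _)
  rw [w.map_mul _ _ (pow_ne_zero _ hr) hD, w.ord_pow hr, ord_zero hw not_dvd_D,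
    ord_zero hw not_dvd_E] at h1
  right
  push_cast at h1
  omega

theorem form_reg {d : Dat K} {w : DVal K} (hw : Hyp d w) (P0 P1 P2 : MvPolynomial (Fin 3) ℂ) :
    w.Reg (aeval (tt d) P0 + aeval (tt d) P1 * d.r + aeval (tt d) P2 * d.r ^ 2) := by
  have h0 := reg_aeval hw P0
  have h1 := reg_aeval hw P1
  have h2 := reg_aeval hw P2
  have hr := reg_r hw
  rw [← w.mem_O] at *
  exact add_mem (add_mem h0 (mul_mem h1 hr)) (mul_mem h2 (pow_mem hr 2))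

theorem form_not_pos {d : Dat K} {w : DVal K} (hw : Hyp d w) {P0 P1 P2 : MvPolynomial (Fin 3) ℂ}
    (h : ¬ (X 0 ∣ P0 ∧ X 0 ∣ P1 ∧ X 0 ∣ P2)) :
    ¬ w.Pos (aeval (tt d) P0 + aeval (tt d) P1 * d.r + aeval (tt d) P2 * d.r ^ 2) := by
  intro hpos
  apply h
  apply norm_form
  rw [← pos_iff hw]
  set D : K := aeval (tt d) (X 1 ^ 2 * (1 - X 0 ^ 2) : MvPolynomial (Fin 3) ℂ) with hD
  set E : K := aeval (tt d) (1 - X 0 ^ 2 * X 1 ^ 2 : MvPolynomial (Fin 3) ℂ) with hE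
  have hr3 : d.r ^ 3 * D = E := r_eq d
  have hregD : w.Reg D := reg_aeval hw _
  have h0 := reg_aeval hw P0
  have h1 := reg_aeval hw P1
  have h2 := reg_aeval hw P2
  have hr := reg_r hw
  have hkey : aeval (tt d) (P0 ^ 3 * (X 1 ^ 2 * (1 - X 0 ^ 2)) ^ 2 +
      P1 ^ 3 * (1 - X 0 ^ 2 * X 1 ^ 2) * (X 1 ^ 2 * (1 - X 0 ^ 2)) +
      P2 ^ 3 * (1 - X 0 ^ 2 * X 1 ^ 2) ^ 2 -
      3 * P0 * P1 * P2 * (1 - X 0 ^ 2 * X 1 ^ 2) * (X 1 ^ 2 * (1 - X 0 ^ 2))) =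
      (D ^ 2 * ((aeval (tt d) P0) ^ 2 + (aeval (tt d) P1 * d.r) ^ 2 +
        (aeval (tt d) P2 * d.r ^ 2) ^ 2 - aeval (tt d) P0 * (aeval (tt d) P1 * d.r)
        - aeval (tt d) P0 * (aeval (tt d) P2 * d.r ^ 2)
        - (aeval (tt d) P1 * d.r) * (aeval (tt d) P2 * d.r ^ 2))) *
      (aeval (tt d) P0 + aeval (tt d) P1 * d.r + aeval (tt d) P2 * d.r ^ 2) := by
    have e1 : aeval (tt d) (P0 ^ 3 * (X 1 ^ 2 * (1 - X 0 ^ 2)) ^ 2 +
      P1 ^ 3 * (1 - X 0 ^ 2 * X 1 ^ 2) * (X 1 ^ 2 * (1 - X 0 ^ 2)) +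
      P2 ^ 3 * (1 - X 0 ^ 2 * X 1 ^ 2) ^ 2 -
      3 * P0 * P1 * P2 * (1 - X 0 ^ 2 * X 1 ^ 2) * (X 1 ^ 2 * (1 - X 0 ^ 2))) =
      (aeval (tt d) P0) ^ 3 * D ^ 2 + (aeval (tt d) P1) ^ 3 * E * D +
      (aeval (tt d) P2) ^ 3 * E ^ 2 -
      3 * (aeval (tt d) P0) * (aeval (tt d) P1) * (aeval (tt d) P2) * E * D := by
      rw [hD, hE]
      simp only [map_sub, map_add, map_mul, map_pow, map_ofNat, map_one]
    rw [e1, ← hr3]
    ring
  rw [hkey]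
  refine w.pos_mul_left ?_ hpos
  rw [← w.mem_O] at *
  have h3 := mul_mem h1 hr
  have h4 := mul_mem h2 (pow_mem hr 2)
  exact mul_mem (pow_mem hregD 2) (sub_mem (sub_mem (sub_mem (add_mem (add_mem (pow_mem h0 2)
    (pow_mem h3 2)) (pow_mem h4 2)) (mul_mem h0 h3)) (mul_mem h0 h4)) (mul_mem h3 h4))

theorem quot_of_mem (d : Dat K) {g : K}
    (hg : g ∈ IntermediateField.adjoin ℂ ({d.a, d.b, d.c} : Set K)) :
    ∃ P Q : MvPolynomial (Fin 3) ℂ, Q ≠ 0 ∧ g * aeval (tt d) Q = aeval (tt d) P := by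
  have hle : IntermediateField.adjoin ℂ ({d.a, d.b, d.c} : Set K) ≤
      IntermediateField.adjoin ℂ (Set.range (tt d)) := by
    rw [IntermediateField.adjoin_le_iff]
    rintro x (rfl | rfl | rfl)
    · exact a_mem d
    · exact b_mem d
    · exact c_mem d
  obtain ⟨P, Q, h⟩ := (IntermediateField.mem_adjoin_range_iff _ _ _).1 (hle hg)
  by_cases hQ : Q = 0
  · refine ⟨0, 1, one_ne_zero, ?_⟩
    rw [h, hQ]
    simp
  · refine ⟨P, Q, hQ, ?_⟩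
    rw [h, div_mul_cancel₀ _ (aeval_ne d hQ)]

/-- The order of an element is the multiple of the order of `a` by a universal integer. -/
theorem exists_N (d : Dat K) {f : K} (hf : f ≠ 0) :
    ∃ N : ℤ, ∀ w : DVal K, Hyp d w → w.ord f = N * w.ord d.a := by
  obtain ⟨g0, h0, g1, h1, g2, h2, hfe⟩ := d.gen f
  obtain ⟨P0, Q0, hQ0, e0⟩ := quot_of_mem d h0
  obtain ⟨P1, Q1, hQ1, e1⟩ := quot_of_mem d h1
  obtain ⟨P2, Q2, hQ2, e2⟩ := quot_of_mem d h2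
  have hQ : Q0 * Q1 * Q2 ≠ 0 := mul_ne_zero (mul_ne_zero hQ0 hQ1) hQ2
  have hfQ : f * aeval (tt d) (Q0 * Q1 * Q2) = aeval (tt d) (P0 * Q1 * Q2) +
      aeval (tt d) (P1 * Q0 * Q2) * d.r + aeval (tt d) (P2 * Q0 * Q1) * d.r ^ 2 := by
    simp only [map_mul]
    rw [hfe, ← e0, ← e1, ← e2]
    ring
  have hne : ¬ (P0 * Q1 * Q2 = 0 ∧ P1 * Q0 * Q2 = 0 ∧ P2 * Q0 * Q1 = 0) := by
    rintro ⟨z0, z1, z2⟩
    rw [z0, z1, z2] at hfQ
    simp only [map_zero, zero_mul, add_zero] at hfQ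
    exact (mul_ne_zero hf (aeval_ne d hQ)) hfQ
  obtain ⟨m, q0, q1, q2, k0, k1, k2, hq⟩ :=
    common_factor (X_prime (R := ℂ) (i := (0 : Fin 3))) hne
  obtain ⟨n, hn⟩ := ord_aeval d hQ
  refine ⟨m - n, fun w hw => ?_⟩
  set g : K := aeval (tt d) q0 + aeval (tt d) q1 * d.r + aeval (tt d) q2 * d.r ^ 2 with hg
  have hnp : ¬ w.Pos g := form_not_pos hw hq
  have hg0 : g ≠ 0 := fun h => hnp (Or.inl h)
  have hgo : w.ord g = 0 := by
    have h4 : 0 ≤ w.ord g := (form_reg hw q0 q1 q2).resolve_left hg0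
    have h6 : ¬ 0 < w.ord g := fun h => hnp (Or.inr h)
    omega
  have hX : aeval (tt d) (X 0 : MvPolynomial (Fin 3) ℂ) = d.a := aeval_X _ _
  have hfin : f * aeval (tt d) (Q0 * Q1 * Q2) = d.a ^ m * g := by
    rw [hfQ, k0, k1, k2, hg]
    simp only [map_mul (aeval (tt d)) (X 0 ^ m) _, map_pow, hX]
    ring
  have h7 := congrArg w.ord hfin
  rw [w.map_mul _ _ hf (aeval_ne d hQ), w.map_mul _ _ (pow_ne_zero _ d.a_ne) hg0, hgo,
    w.ord_pow d.a_ne, hn w hw] at h7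
  linear_combination h7

theorem ord_a_one {d : Dat K} {w : DVal K} (hw : Hyp d w) : w.ord d.a = 1 := by
  obtain ⟨f, hf, h1⟩ := w.surj
  obtain ⟨N, hN⟩ := exists_N d hf
  have h2 := hN w hw
  rw [h1] at h2
  have h3 : w.ord d.a ∣ 1 := ⟨N, by rw [mul_comm]; exact h2⟩
  have h4 := Int.le_of_dvd one_pos h3
  have h5 := hw.2
  omega

/-- Uniqueness of the exceptional divisor of the blow-up of the origin. -/
theorem gun {d : Dat K} {w w' : DVal K} (hw : IsLocalRing' (IC ![d.a, d.b / d.a, d.c / d.a]) w)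
    (hwa : 0 < w.ord d.a) (hw' : IsLocalRing' (IC ![d.a, d.b / d.a, d.c / d.a]) w')
    (hwa' : 0 < w'.ord d.a) : Same w w' := by
  intro f hf
  obtain ⟨N, hN⟩ := exists_N d hf
  rw [hN w ⟨hw, hwa⟩, hN w' ⟨hw', hwa'⟩, ord_a_one ⟨hw, hwa⟩, ord_a_one ⟨hw', hwa'⟩]

end Pool.Agent.TH917.FL_GUN
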